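import Pool.Agent.R595.SK.Fin2

set_option autoImplicit false

namespace Pool.Agent.Results.MP_06c979_gt.ImageNotStaeckel

open Pool.Agent.R595.SK Cardinal

/-- (1) In ZFC every regular Hausdorff space of size at most `2 ^ 𝔠` in which countable sets have
compact closure is a continuous image of a Staeckel-compact space. (2) Friedman's principle for
`ω₂` implies that some continuous image, inside a Tychonoff space, of a Staeckel-compact space is
not Staeckel-compact. -/
theorem result :
    (∀ (Y : Type) [TopologicalSpace Y], T3Space Y → OmegaBounded Y →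
      #Y ≤ (2 : Cardinal.{0}) ^ ((2 : Cardinal.{0}) ^ ℵ₀) →
      ∃ (X : Type) (_ : TopologicalSpace X) (f : X → Y),
        Staeckel X ∧ Continuous f ∧ Function.Surjective f) ∧
    (FriedmanPrinciple →
      ∃ (X Y : Type) (_ : TopologicalSpace X) (_ : TopologicalSpace Y) (f : X → Y),
        Staeckel X ∧ T35Space Y ∧ Continuous f ∧ ¬ Staeckel (Set.range f)) :=
  ⟨fun Y _ h1 h2 h3 => by
    haveI := h1
    exact image_thm Y h2 h3, range_thm⟩

end Pool.Agent.Results.MP_06c979_gt.ImageNotStaeckel
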